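import Pool.Agent.Helper13.ML.All
import Pool.Agent.Helper45.LN3.All
import Pool.Agent.Helper45.LN.Conv

/-!
# Sections of almost all cyclic twists of a curve, over all finite extensions

Let `k` be a number field, `n ≥ 2`, `K₀` the function field of a curve `Y` over `k`, `h ∈ K₀`, and
`X` the curve `yⁿ = h`, geometrically irreducible of degree `n` over `Y` and of genus at least one.
(Roots of unity need not be in `k`.)  Its twists are the curves `yⁿ = c h`, `c ∈ k*/k*ⁿ`, ordered by
the norm of the product of the primes `v` of `k` with `v(c)` not divisible by `n`.  A point `P` of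
`Y` is totally ramified if `v_P(h)` is prime to `n`.

* Local theorem: for almost all primes `v` of `k`, all finite extensions `k'` of `k`, all primes `v'`
  of `k'` above `v` and all `c ∈ k'*` with `v'(c)` not divisible by `n`: if `yⁿ = c h`, or a curve
  over `k'` which maps onto it, has a Galois section over `k'` then a Frobenius element at `v'` fixes
  a point `P` of `Y` such that `gcd(n, v_P(h))` divides `v'(c)`.
* Let `σ` be an automorphism of the algebraic closure over `k`, and `Deg σ` the set of the sums of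
  the number `n` and the numbers `e f` where `σ ^ f` fixes a point `P` such that `gcd(n, v_P(h))`
  divides `e`.  For 100 percent of the `c ∈ k*/k*ⁿ`: if `yⁿ = c h`, or a curve which maps onto it,
  has a section over a finite extension `k'` of `k`, then the degree of `k'` is in `Deg σ`.  The
  proportion of the exceptions with norm at most `X` is at most `C / (log X) ^ η`.
* In particular, if some `σ` fixes no totally ramified point then for 100 percent of the `c` neither
  `yⁿ = c h` nor any curve over `k` which maps onto it has a section (for a set of primes `v` of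
  positive density the twists by `c` with `v(c)` prime to `n` have no section over `k_v`).
* The same holds if no rational point of `Y` is totally ramified, and `k` contains the `ℓ`-th roots of
  unity for some prime `ℓ` which divides `n` (for even `n`: for all `k`).  Here there are in general
  no local obstructions.
* If some rational point of `Y` is totally ramified in `X` then all twists have a section.
-/

set_option autoImplicit false

namespace Pool.Agent.Results.MP_e66f84_ag.CyclicTwists

open NumberField IsDedekindDomain VC Pool.Agent.Helper91.Sect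

/-- `v(c)` is not divisible by `n`: the value of `c` is not the `n`-th power of the value of an
element. -/
def IsRam {k : Type} [Field k] [NumberField k] (n : ℕ) (v : HeightOneSpectrum (𝓞 k)) (c : k) :
    Prop :=
  ∀ d : k, v.valuation k c ≠ v.valuation k d ^ n

open scoped Classical in
/-- The norm of the product of the primes `v` of `k` with `v(c)` not divisible by `n`. -/
noncomputable def cond {k : Type} [Field k] [NumberField k] (n : ℕ) (c : k) : ℕ :=
  ∏ᶠ v : HeightOneSpectrum (𝓞 k), if IsRam n v c then Ideal.absNorm v.asIdeal else 1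

/-- The group `k*/k*ⁿ`. -/
abbrev Cls (k : Type) [Field k] (n : ℕ) : Type := kˣ ⧸ (powMonoidHom n : kˣ →* kˣ).range

/-- The classes `c ∈ k*/k*ⁿ` with `cond c ≤ X`. -/
def twists (k : Type) [Field k] [NumberField k] (n X : ℕ) : Set (Cls k n) :=
  {C | ∃ c : kˣ, (c : Cls k n) = C ∧ cond n (c : k) ≤ X}

/-- The elements of `K₀` and the elements algebraic over `k`, in the algebraic closure of `K₀`: they
generate the function field of `Y` over the algebraic closure of `k`. -/
def base (k K₀ : Type) [Field k] [Field K₀] [Algebra k K₀] : Set (AlgebraicClosure K₀) :=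
  {z | IsAlgebraic k z} ∪ Set.range (algebraMap K₀ (AlgebraicClosure K₀))

/-- `K₀/k` is a function field of one variable, and over the algebraic closure of `k` the curve
`yⁿ = h` is irreducible (no power `yⁱ`, `0 < i < n`, is in the function field of `Y`) and not
rational. -/
structure IsCyclicCover (k : Type) {K₀ : Type} [Field k] [Field K₀] [Algebra k K₀] (n : ℕ)
    (h : K₀) : Prop where
  ff : IsFunctionField k K₀
  irr : ∀ r : AlgebraicClosure K₀, r ^ n = algebraMap K₀ (AlgebraicClosure K₀) h →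
    ∀ i : ℕ, 0 < i → i < n → r ^ i ∉ Subfield.closure (base k K₀)
  nonrat : ∀ r : AlgebraicClosure K₀, r ^ n = algebraMap K₀ (AlgebraicClosure K₀) h →
    ∀ y : AlgebraicClosure K₀,
      Subfield.closure (base k K₀ ∪ {r}) ≠ Subfield.closure ({z | IsAlgebraic k z} ∪ {y})

/-- `P` is a point of `Y`: a valuation ring of `K₀` containing `k`. -/
def IsPoint (k : Type) {K₀ : Type} [Field k] [Field K₀] [Algebra k K₀] (P : ValuationSubring K₀) :
    Prop :=
  ∀ a : k, algebraMap k K₀ a ∈ P

/-- `P` is a totally ramified point of `yⁿ = h`: the value of `h` at `P` is prime to `n`. -/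
structure IsTotallyRamified (k : Type) {K₀ : Type} [Field k] [Field K₀] [Algebra k K₀] (n : ℕ)
    (h : K₀) (P : ValuationSubring K₀) : Prop where
  point : IsPoint k P
  ram : ∀ d : ℕ, d ∣ n → 1 < d → ∀ z : K₀, P.valuation h ≠ P.valuation z ^ d

/-- The residue field of `P` is `k`. -/
def IsRational (k : Type) {K₀ : Type} [Field k] [Field K₀] [Algebra k K₀]
    (P : ValuationSubring K₀) : Prop :=
  ∀ x ∈ P, ∃ a : k, P.valuation (x - algebraMap k K₀ a) < 1

/-- `σ` fixes a point over `P`: it is trivial on the image of the residue field of `P` under an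
embedding over `k`. -/
def Fixes {k K₀ : Type} [Field k] [Field K₀] [Algebra k K₀]
    (σ : AlgebraicClosure k ≃ₐ[k] AlgebraicClosure k) (P : ValuationSubring K₀) : Prop :=
  ∃ φ : P →+* AlgebraicClosure k,
    (∀ (a : k) (x : P), (x : K₀) = algebraMap k K₀ a → φ x = algebraMap k (AlgebraicClosure k) a) ∧
    ∀ x : P, σ (φ x) = φ x

/-- The prime `v'` of `k'` lies above the prime `v` of `k`. -/
def Above {k k' : Type} [Field k] [NumberField k] [Field k'] [NumberField k'] [Algebra k k']
    (v : HeightOneSpectrum (𝓞 k)) (v' : HeightOneSpectrum (𝓞 k')) : Prop :=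
  ∀ x : k, v'.valuation k' (algebraMap k k' x) ≤ 1 ↔ v.valuation k x ≤ 1

/-- `F` is a Frobenius element at the valuation ring `O` of `Ω` over the prime `v` of `k`. -/
structure IsFrobenius {k Ω : Type} [Field k] [NumberField k] [Field Ω] [Algebra k Ω]
    (v : HeightOneSpectrum (𝓞 k)) (O : ValuationSubring Ω) (F : Ω ≃ₐ[k] Ω) : Prop where
  above : ∀ x : k, algebraMap k Ω x ∈ O ↔ v.valuation k x ≤ 1
  stab : ∀ z, F z ∈ O ↔ z ∈ O
  frob : ∀ z ∈ O, O.valuation (F z - z ^ Ideal.absNorm v.asIdeal) < 1

/-- Some curve over the extension `k'` of `k` which maps onto the curve `yⁿ = c h` over `k'` has a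
Galois section: there are an extension `K` of `k'` and `K₀` (as extensions of `k`) and `y ∈ K` with
`yⁿ = c h` such that `K/k'` has a Galois section (`K` may be any such field; the curve itself is
`K = k' K₀(y)`). -/
def HasSection (k k' : Type) {K₀ : Type} [Field k] [Field k'] [Field K₀] [Algebra k k']
    [Algebra k K₀] (n : ℕ) (h : K₀) (c : k') : Prop :=
  ∃ (K : Type) (_ : Field K) (_ : Algebra k' K) (_ : Algebra K₀ K) (y : K),
    (∀ a : k, algebraMap k' K (algebraMap k k' a) = algebraMap K₀ K (algebraMap k K₀ a)) ∧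
    y ^ n = algebraMap k' K c * algebraMap K₀ K h ∧ Nonempty (GaloisSection k' K)

/-- The set `Deg σ`: the additive monoid generated by `n` and the numbers `e f` where `σ ^ f` fixes a
point `P` of `Y` such that `gcd(n, v_P(h))` divides `e` (if `d` divides `n` and not `e` then the value
of `h` at `P` is not a `d`-th power). -/
def Deg {k K₀ : Type} [Field k] [Field K₀] [Algebra k K₀] (n : ℕ) (h : K₀)
    (σ : AlgebraicClosure k ≃ₐ[k] AlgebraicClosure k) : AddSubmonoid ℕ :=
  AddSubmonoid.closure {m | m = n ∨ ∃ e f : ℕ, 0 < e ∧ 0 < f ∧ m = e * f ∧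
    ∃ P : ValuationSubring K₀, IsPoint k P ∧ Fixes (σ ^ f) P ∧
      ∀ d : ℕ, d ∣ n → ¬ d ∣ e → ∀ z : K₀, P.valuation h ≠ P.valuation z ^ d}

/-- The classes of twists with `cond ≤ X` for which the twist, or some curve which maps onto it, has
a section over a finite extension of `k` whose degree is not in `D`. -/
def exceptions (k : Type) {K₀ : Type} [Field k] [NumberField k] [Field K₀] [Algebra k K₀]
    (n : ℕ) (h : K₀) (D : AddSubmonoid ℕ) (X : ℕ) : Set (Cls k n) :=
  {C | ∃ c : kˣ, (c : Cls k n) = C ∧ cond n (c : k) ≤ X ∧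
    ∃ (k' : Type) (_ : Field k') (_ : Algebra k k') (_ : FiniteDimensional k k'),
      HasSection k k' n h (algebraMap k k' c) ∧ Module.finrank k k' ∉ D}

/-- The classes of twists with `cond ≤ X` for which the twist, or some curve over `k` which maps onto
it, has a section. -/
def twistsWithSection (k : Type) {K₀ : Type} [Field k] [NumberField k] [Field K₀] [Algebra k K₀]
    (n : ℕ) (h : K₀) (X : ℕ) : Set (Cls k n) :=
  {C | ∃ c : kˣ, (c : Cls k n) = C ∧ cond n (c : k) ≤ X ∧ HasSection k k n h (c : k)}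

theorem goodCurve {k K₀ : Type} [Field k] [Field K₀] [Algebra k K₀] {n : ℕ} {h : K₀}
    (H : IsCyclicCover k n h) : Pool.Agent.LN.GoodCurve k n h :=
  ⟨H.ff, H.irr, H.nonrat⟩

theorem deg_eq {k K₀ : Type} [Field k] [Field K₀] [Algebra k K₀] (n : ℕ) (h : K₀)
    (σ : AlgebraicClosure k ≃ₐ[k] AlgebraicClosure k) :
    Pool.Agent.LN3.Deg n h σ = Deg n h σ := by
  unfold Pool.Agent.LN3.Deg Deg
  congr 1
  ext m
  constructor
  · rintro (h1 | ⟨e, f, he, hf, hm, P, φ, h1, h2, h3, h4⟩)
    · exact Or.inl h1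
    · exact Or.inr ⟨e, f, he, hf, hm, P, h1, ⟨φ, h3, h4⟩, fun d hd hd' => h2 d ⟨hd, hd'⟩⟩
  · rintro (h1 | ⟨e, f, he, hf, hm, P, h1, ⟨φ, h3, h4⟩, h2⟩)
    · exact Or.inl h1
    · exact Or.inr ⟨e, f, he, hf, hm, P, φ, h1, fun d hd => h2 d hd.1 hd.2, h3, h4⟩

/-- The number one is not a sum of positive numbers other than one. -/
theorem one_notMem {S : Set ℕ} (hS : (1 : ℕ) ∉ S) : (1 : ℕ) ∉ AddSubmonoid.closure S := by
  have key : ∀ m ∈ AddSubmonoid.closure S, m ≠ 1 := by
    intro m hm
    induction hm using AddSubmonoid.closure_induction with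
    | mem x hx => rintro rfl; exact hS hx
    | zero => exact zero_ne_one
    | add x y _ _ hx hy => omega
  exact fun h => key 1 h rfl

theorem one_notMem_deg {k K₀ : Type} [Field k] [Field K₀] [Algebra k K₀] {n : ℕ} (hn : 2 ≤ n)
    {h : K₀} {σ : AlgebraicClosure k ≃ₐ[k] AlgebraicClosure k}
    (hσ : ∀ P : ValuationSubring K₀, IsTotallyRamified k n h P → ¬ Fixes σ P) :
    1 ∉ Deg n h σ := by
  refine one_notMem ?_
  rintro (h1 | ⟨e, f, -, -, hef, P, h1, h2, h3⟩)
  · omega
  · obtain ⟨rfl, rfl⟩ : e = 1 ∧ f = 1 := by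
      have := Nat.eq_one_of_mul_eq_one_right hef.symm
      have := Nat.eq_one_of_mul_eq_one_left hef.symm
      omega
    rw [pow_one] at h2
    exact hσ P ⟨h1, fun d hd hd1 => h3 d hd fun h4 => by
      have := Nat.le_of_dvd one_pos h4
      omega⟩ h2

theorem result {k K₀ : Type} [Field k] [NumberField k] [Field K₀] [Algebra k K₀] (n : ℕ)
    (hn : 2 ≤ n) (h : K₀) (H : IsCyclicCover k n h) :
    (∀ X : ℕ, (twists k n X).Finite) ∧
    -- the local theorem
    (∃ Bad : Set (HeightOneSpectrum (𝓞 k)), Bad.Finite ∧ ∀ v ∉ Bad, ∀ (k' : Type) [Field k']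
      [NumberField k'] [Algebra k k'] (v' : HeightOneSpectrum (𝓞 k')), Above v v' → ∀ c : k',
      c ≠ 0 → IsRam n v' c → HasSection k k' n h c →
      ∃ (_ : Algebra k' (AlgebraicClosure k)) (_ : IsScalarTower k k' (AlgebraicClosure k))
        (O : ValuationSubring (AlgebraicClosure k))
        (F : AlgebraicClosure k ≃ₐ[k'] AlgebraicClosure k), IsFrobenius v' O F ∧
        ∃ P : ValuationSubring K₀, IsPoint k P ∧ Fixes (F.restrictScalars k) P ∧
          ∀ d : ℕ, d ∣ n → IsRam d v' c → ∀ z : K₀, P.valuation h ≠ P.valuation z ^ d) ∧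
    -- the degrees of the extensions of `k` over which 100 percent of the twists have no section
    (∀ σ : AlgebraicClosure k ≃ₐ[k] AlgebraicClosure k,
      ∃ η C : ℝ, 0 < η ∧ 0 < C ∧ ∀ X : ℕ, 3 ≤ X →
        (Nat.card (exceptions k n h (Deg n h σ) X) : ℝ) ≤
          C * Nat.card (twists k n X) / Real.log X ^ η) ∧
    -- 100 percent of the twists have no section over `k`
    ((∃ σ : AlgebraicClosure k ≃ₐ[k] AlgebraicClosure k,
        ∀ P : ValuationSubring K₀, IsTotallyRamified k n h P → ¬ Fixes σ P) ∨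
      ((∃ (ℓ : ℕ) (ζ : k), ℓ.Prime ∧ ℓ ∣ n ∧ IsPrimitiveRoot ζ ℓ) ∧
        ∀ P : ValuationSubring K₀, IsTotallyRamified k n h P → ¬ IsRational k P) →
      ∃ η C : ℝ, 0 < η ∧ 0 < C ∧ ∀ X : ℕ, 3 ≤ X →
        (Nat.card (twistsWithSection k n h X) : ℝ) ≤
          C * Nat.card (twists k n X) / Real.log X ^ η) ∧
    -- the converse
    ((∃ P : ValuationSubring K₀, IsTotallyRamified k n h P ∧ IsRational k P) →
      ∀ c : k, c ≠ 0 →
      ∃ (K : Type) (_ : Field K) (_ : Algebra k K) (_ : Algebra K₀ K) (_ : IsScalarTower k K₀ K)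
        (y : K), y ^ n = algebraMap k K c * algebraMap K₀ K h ∧
        IntermediateField.adjoin K₀ {y} = ⊤ ∧ Nonempty (GaloisSection k K)) := by
  have htw : ∀ X : ℕ, twists k n X = Pool.Agent.LN.clsP (k := k) n (fun _ => True) X := by
    intro X
    ext C
    constructor
    · rintro ⟨c, h1, h2⟩
      exact ⟨c, h1, h2, trivial⟩
    · rintro ⟨c, h1, h2, -⟩
      exact ⟨c, h1, h2⟩
  have hfin : ∀ X : ℕ, (twists k n X).Finite := fun X => by
    rw [htw]
    exact Pool.Agent.LN.twists_finite n hn X
  have hmain : ∀ σ : AlgebraicClosure k ≃ₐ[k] AlgebraicClosure k,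
      ∃ η C : ℝ, 0 < η ∧ 0 < C ∧ ∀ X : ℕ, 3 ≤ X →
        (Nat.card (exceptions k n h (Deg n h σ) X) : ℝ) ≤
          C * Nat.card (twists k n X) / Real.log X ^ η := by
    intro σ
    obtain ⟨η, C, hη, hC, h4⟩ := Pool.Agent.LN3.fin_all k K₀ n h hn (goodCurve H) σ
    refine ⟨η, C, hη, hC, fun X hX => ?_⟩
    rw [htw, ← deg_eq]
    exact h4 X hX
  refine ⟨hfin, ?_, hmain, ?_, fun ⟨P, h1, h2⟩ c hc => ?_⟩
  · obtain ⟨Bad, hBad, hloc⟩ := Pool.Agent.LN3.loc_all k K₀ n h hn (goodCurve H)
    refine ⟨Bad, hBad, fun v hv k' _ _ _ v' hv' c hc hram hsec => ?_⟩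
    obtain ⟨i1, i2, O, F, p, f, hD, P, φ, h1, h2, h3, h4⟩ := hloc v hv k' v' hv' c hc hram hsec
    refine ⟨i1, i2, O, F, ⟨hD.above, hD.frob.stable, fun z hz => ?_⟩, P, h1, ⟨φ, h3, h4⟩,
      fun d hd hr => h2 d ⟨hd, hr⟩⟩
    have h5 : Ideal.absNorm v'.asIdeal = p ^ f := hD.norm
    rw [h5]
    exact hD.frob.frob z hz
  · rintro (⟨σ, hσ⟩ | ⟨⟨ℓ, ζ, hℓ, hln, hζ⟩, hrat⟩)
    swap
    · obtain ⟨η, C, hη, hC, h4⟩ := Pool.Agent.ML.finA k K₀ n ℓ h (by omega) hℓ hln ⟨ζ, hζ⟩
        (goodCurve H) (fun ⟨P, h1, h2, h3⟩ => hrat P ⟨h1, h3⟩ h2)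
      refine ⟨η, C, hη, hC, fun X hX => ?_⟩
      rw [htw]
      refine le_trans ?_ (h4 X hX)
      have h5 : twistsWithSection k n h X ⊆
          Pool.Agent.LN.clsP n (fun c : k => Pool.Agent.LN.HasSec n h c) X := by
        rintro D ⟨c, h6, h7, K, i1, i2, i3, y, hk, hy, hs⟩
        let _ : Algebra k K := i2
        have hst : IsScalarTower k K₀ K := IsScalarTower.of_algebraMap_eq fun a => hk a
        exact ⟨c, h6, h7, K, i1, i2, i3, hst, y, hy, hs⟩
      have h6 : (Pool.Agent.LN.clsP n (fun c : k => Pool.Agent.LN.HasSec n h c) X).Finite := by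
        refine (Pool.Agent.LN.twists_finite (k := k) n hn X).subset ?_
        rintro D ⟨c, h7, h8, -⟩
        exact ⟨c, h7, h8, trivial⟩
      exact_mod_cast Nat.card_mono h6 h5
    obtain ⟨η, C, hη, hC, h4⟩ := hmain σ
    refine ⟨η, C, hη, hC, fun X hX => le_trans ?_ (h4 X hX)⟩
    have h5 : twistsWithSection k n h X ⊆ exceptions k n h (Deg n h σ) X := by
      rintro D ⟨c, h6, h7, h8⟩
      refine ⟨c, h6, h7, k, inferInstance, inferInstance, inferInstance, h8, ?_⟩
      rw [Module.finrank_self]
      exact one_notMem_deg hn hσ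
    have h6 : (exceptions k n h (Deg n h σ) X).Finite :=
      (hfin X).subset fun D ⟨c, h7, h8, _⟩ => ⟨c, h7, h8⟩
    exact_mod_cast Nat.card_mono h6 h5
  · exact Pool.Agent.LN.conv n hn h P h1.point
      (fun l hl hln => h1.ram l hln hl.one_lt) h2 c hc

end Pool.Agent.Results.MP_e66f84_ag.CyclicTwists
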