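import Pool.Agent.Helper13.LG.Percent

/-!
# The section conjecture for 100 percent of the twists of every superelliptic curve

Let `k` be a finitely generated field of characteristic zero, `t` and `u` two elements of `k` which
are algebraically independent over `ℚ`, and `c yⁿ = f(x)` any superelliptic curve over `k` (`f`
separable of degree at least `3`, `n ≥ 2`).

Let `m ≥ 1`.  For all but `C (2H + 1) ^ (N - 1)` of the `(2H + 1) ^ N` polynomials `v` of degree at
most `m` in two variables with integral coefficients of absolute value at most `H`, and for all `j`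
not divisible by `n`, every Galois section of the twist `v(t, u)^j c yⁿ = f(x)` is geometric: it
comes from a rational point.
-/

universe u

namespace Pool.Agent.Results.MP_e66f84_ag.HundredPercentTwists

open Polynomial Pool.Agent.Helper91.Sect Pool.Agent.SC

/-- The exponents `(i, j)` of the monomials `t^i u^j` of degree at most `m`. -/
abbrev Exponents (m : ℕ) : Type := {p : Fin (m + 1) × Fin (m + 1) // (p.1 : ℕ) + p.2 ≤ m}

/-- The value at `(t, u)` of the polynomial `∑ a_{ij} t^i u^j` of degree at most `m`. -/
noncomputable def value {k : Type u} [Field k] {m : ℕ} (t u : k) (a : Exponents m → ℤ) : k :=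
  ∑ p : Exponents m, (a p : k) * t ^ (p.1.1 : ℕ) * u ^ (p.1.2 : ℕ)

/-- The twists `v^j c yⁿ = f(x)` by the powers of `v` (`n` does not divide `j`) satisfy the section
conjecture: if `K` is the function field of such a curve, every Galois section of `K / k` is
geometric. -/
def TwistsSatisfySC {k : Type u} [Field k] (n : ℕ) (f : k[X]) (c v : k) : Prop :=
  ∀ j : ℕ, ¬ n ∣ j → ∀ (K : Type u) [Field K] [Algebra k K] (x y : K), Transcendental k x →
    IntermediateField.adjoin k {x, y} = ⊤ →
    algebraMap k K (v ^ j * c) * y ^ n = aeval x f →
    ∀ s : GaloisSection k K, IsGeometric s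

/-- **The section conjecture for 100 percent of the twists.** -/
theorem result {k : Type u} [Field k] [CharZero k]
    -- `k` is finitely generated
    (hk : ∃ S : Finset k, Subfield.closure (S : Set k) = ⊤)
    {t u : k} (htu : AlgebraicIndependent ℚ ![t, u])
    -- an arbitrary superelliptic curve
    {n : ℕ} {f : k[X]} {c : k} (hn : 2 ≤ n) (hdeg : 3 ≤ f.natDegree) (hf : f.Separable)
    (hc : c ≠ 0) {m : ℕ} (hm : 1 ≤ m) :
    ∃ C : ℕ, ∀ H : ℕ,
      {a : Exponents m → ℤ | (∀ i, |a i| ≤ H) ∧ ¬ TwistsSatisfySC n f c (value t u a)}.ncard ≤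
        C * (2 * H + 1) ^ (Fintype.card (Exponents m) - 1) :=
  Pool.Agent.LT.goodTwist_percent hk htu hn hdeg hf hc hm

end Pool.Agent.Results.MP_e66f84_ag.HundredPercentTwists
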