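import Pool.Agent.Helper99.HG.AllR
import Pool.Agent.Helper45.HG.RatioR
import Pool.Agent.Helper88.HG.Conv
import Pool.Agent.Helper13.HG2.All2
import Pool.Agent.Helper13.HG2.Inf

/-!
# The section conjecture for almost all quadratic twists of a hyperelliptic curve

Let `k` be a number field, `f ∈ k[x]` separable and `c ∈ k*`.  The twists `y² = c f(x)` of
`y² = f(x)` are ordered by the norm of the product of the primes `v` of `k` with `v(c)` odd.

* If `f` has even degree at least `4` and no root in `k` (no rational Weierstrass point) then 100
  percent of the twists, and all curves over `k` which map onto them, have no Galois section; the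
  proportion of the exceptions is at most `C / (log X) ^ η`.
* Otherwise every twist has a section.
* If `f` has odd degree at least `5` and all its roots have degree at least `4` over `k` (exactly one
  rational Weierstrass point, the point at infinity, and the others of degree at least `4`) then for
  100 percent of the twists all sections, of the twist and of all curves over `k` which map onto it,
  agree modulo `2` with the section of the point at infinity.
-/

set_option autoImplicit false

namespace Pool.Agent.Results.MP_e66f84_ag.HyperellipticTwists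

open Polynomial NumberField IsDedekindDomain Filter Topology Pool.Agent.Helper91.Sect

/-- `v(c)` is odd: the value of `c` is not the square of the value of an element. -/
def IsOdd {k : Type} [Field k] [NumberField k] (v : HeightOneSpectrum (𝓞 k)) (c : k) : Prop :=
  ∀ d : k, v.valuation k c ≠ v.valuation k d ^ 2

open scoped Classical in
/-- The norm of the product of the primes `v` of `k` with `v(c)` odd. -/
noncomputable def cond {k : Type} [Field k] [NumberField k] (c : k) : ℕ :=
  ∏ᶠ v : HeightOneSpectrum (𝓞 k), if IsOdd v c then Ideal.absNorm v.asIdeal else 1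

/-- Some curve over `k` which maps onto the curve `y² = c f(x)` has a Galois section: there are an
extension `K` of `k` and `x, y ∈ K` with `x` transcendental and `y² = c f(x)` such that `K/k` has a
Galois section (`K` may be any field; the curve itself is `K = k(x, y)`). -/
def HasSection {k : Type} [Field k] (f : k[X]) (c : k) : Prop :=
  ∃ (K : Type) (_ : Field K) (_ : Algebra k K) (x y : K), Transcendental k x ∧
    y ^ 2 = algebraMap k K c * aeval x f ∧ Nonempty (GaloisSection k K)

/-- The section `s` of `K ∋ x` agrees modulo `2` with the section of the point at infinity of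
`y² = c f(x)`, `f` of odd degree with leading coefficient `a₀`: for every root `ρ` of `f` it fixes
the square roots of `c a₀ (x - ρ)`, over `k(ρ)`. -/
def AgreesInf {k K : Type} [Field k] [Field K] [Algebra k K] (s : GaloisSection k K) (x : K)
    (f : k[X]) (c : k) : Prop :=
  ∀ ρ : kbar k K, aeval ρ f = 0 → ∃ W : Kur k K,
    (W : AlgebraicClosure K) ^ 2 = algebraMap k (AlgebraicClosure K) (c * f.leadingCoeff) *
      (algebraMap K (AlgebraicClosure K) x - ρ) ∧
    ∀ g : Gk k K, g ρ = ρ → s.toHom g W = W

/-- Some curve over `k` which maps onto `y² = c f(x)` has a section which does not agree modulo `2`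
with the section of the point at infinity. -/
def HasOtherSection {k : Type} [Field k] (f : k[X]) (c : k) : Prop :=
  ∃ (K : Type) (_ : Field K) (_ : Algebra k K) (x y : K), Transcendental k x ∧
    y ^ 2 = algebraMap k K c * aeval x f ∧ ∃ s : GaloisSection k K, ¬ AgreesInf s x f c

/-- The group `k*/k*²`. -/
abbrev Cls (k : Type) [Field k] : Type := kˣ ⧸ (powMonoidHom 2 : kˣ →* kˣ).range

/-- The classes `c ∈ k*/k*²` with `cond c ≤ X`. -/
def twists (k : Type) [Field k] [NumberField k] (X : ℕ) : Set (Cls k) :=
  {C | ∃ c : kˣ, (c : Cls k) = C ∧ cond (c : k) ≤ X}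

/-- Those with the property `P`. -/
def twistsWith {k : Type} [Field k] [NumberField k] (P : k → Prop) (X : ℕ) : Set (Cls k) :=
  {C | ∃ c : kˣ, (c : Cls k) = C ∧ cond (c : k) ≤ X ∧ P (c : k)}

theorem result {k : Type} [Field k] [NumberField k] (f : k[X]) (hsep : f.Separable) :
    (∀ X : ℕ, (twists k X).Finite) ∧
    -- no rational Weierstrass point: almost no twist has a section
    (Even f.natDegree → 4 ≤ f.natDegree → (∀ a : k, eval a f ≠ 0) →
      ∃ η C : ℝ, 0 < η ∧ 0 < C ∧ ∀ X : ℕ, 3 ≤ X →
        (Nat.card (twistsWith (HasSection f) X) : ℝ) ≤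
          C * Nat.card (twists k X) / Real.log X ^ η) ∧
    -- a rational Weierstrass point: every twist has a section
    ((Odd f.natDegree ∨ ∃ a : k, eval a f = 0) → ∀ c : k, c ≠ 0 →
      ∃ (K : Type) (_ : Field K) (_ : Algebra k K) (x y : K), Transcendental k x ∧
        y ^ 2 = algebraMap k K c * aeval x f ∧ IntermediateField.adjoin k {x, y} = ⊤ ∧
        Nonempty (GaloisSection k K)) ∧
    -- the point at infinity, and all others of degree at least `4`: the section at infinity is, for
    -- almost all twists, the only one modulo `2`
    (Odd f.natDegree → 5 ≤ f.natDegree →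
      (∀ θ : AlgebraicClosure k, aeval θ f = 0 → 4 ≤ (minpoly k θ).natDegree) →
      (∀ c : k, c ≠ 0 → ∃ (K : Type) (_ : Field K) (_ : Algebra k K) (x y : K),
        Transcendental k x ∧ y ^ 2 = algebraMap k K c * aeval x f ∧
        IntermediateField.adjoin k {x, y} = ⊤ ∧ ∃ s : GaloisSection k K, AgreesInf s x f c) ∧
      Tendsto (fun X : ℕ => (Nat.card (twistsWith (HasOtherSection f) X) : ℝ) /
        Nat.card (twists k X)) atTop (𝓝 0)) := by
  refine ⟨Pool.Agent.HG.clsLE_finite Pool.Agent.HG.sel, fun heven h4 hroot => ?_,
    fun h c hc => ?_, fun hodd h5 hdeg => ⟨fun c hc => ?_, ?_⟩⟩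
  · exact (Pool.Agent.HG.ratioR_of_finalR Pool.Agent.HG.sel Pool.Agent.HG.finalR k f hsep heven h4
      hroot).2
  · refine Pool.Agent.Helper88.HG.curve_section ?_ hc
    rcases h with h | ⟨a, ha⟩
    · exact Or.inr h
    · exact Or.inl ⟨a, hsep, ha⟩
  · refine Pool.Agent.HG.exists_agreesInf hsep ?_ hodd hc
    intro h0
    have h1 : aeval (0 : AlgebraicClosure k) f = 0 := by
      rw [aeval_def, eval₂_at_zero, h0, map_zero]
    have h2 := hdeg 0 h1
    rw [minpoly.zero, natDegree_X] at h2
    omega
  · exact Pool.Agent.HG.ratioOdd Pool.Agent.HG.sel Pool.Agent.HG.finalOdd k f hsep hodd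
      h5 hdeg

end Pool.Agent.Results.MP_e66f84_ag.HyperellipticTwists
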