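import Pool.Agent.Helper13.MLF.All

/-!
# Almost no locally soluble cyclic twist of prime degree of a curve has a section

Let `ℓ` be a prime, `k` a number field which contains the `ℓ`-th roots of unity and `X → Y` a cyclic
cover of degree `ℓ` of curves over `k`, given by the function field `K₀` of `Y` and `h ∈ K₀`: `X` is
the curve `y ^ ℓ = h`, geometrically irreducible and of genus at least one.  Its twists are the curves
`y ^ ℓ = c h`, `c ∈ k* / k* ^ ℓ`, ordered by the norm of the product of the primes `v` of `k` with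
`v(c)` not divisible by `ℓ`.  The geometric branch points are the points of `Y` over the algebraic
closure of `k` at which the order of `h` is not divisible by `ℓ`.  Assume that there are some, and
that for every Galois stable set `J` of `j` of them, with `1 ≤ j ≤ 4` if `ℓ = 2`, `1 ≤ j ≤ 3` if
`ℓ = 3` and `j = 1` or `j = 2` if `ℓ ≥ 5`, some element of the Galois group of `k` fixes a geometric
branch point, but none in `J` (for example that all orbits have at least five, four or three elements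
respectively: `y ^ ℓ = f(x)`, `f` irreducible of degree at least five and divisible by `ℓ`).

* For every finite set `S` of primes of `k`, 100 percent of the twists which have points over the
  reals (for all real embeddings) and over `k_v` for `v ∈ S` and for all `v` with `v(c)` not divisible
  by `ℓ` have no section, nor has any curve over `k` which maps onto them.
* If `Y` is the projective line then 100 percent of the everywhere locally soluble twists, of which
  there are at least `δ X / log X` with norm at most `X`, have no section, nor has any curve over `k`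
  which maps onto them; in particular they have no rational point and violate the Hasse principle.
-/

set_option autoImplicit false

namespace Pool.Agent.Results.MP_e66f84_ag.LocallySolubleTwists

open NumberField IsDedekindDomain VC Pool.Agent.Helper91.Sect

/-- `ℓ` does not divide `v(c)`: the value of `c` is not the `ℓ`-th power of the value of an
element. -/
def IsRam {k : Type} [Field k] [NumberField k] (ℓ : ℕ) (v : HeightOneSpectrum (𝓞 k)) (c : k) :
    Prop :=
  ∀ d : k, v.valuation k c ≠ v.valuation k d ^ ℓ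

open scoped Classical in
/-- The norm of the product of the primes `v` of `k` with `v(c)` not divisible by `ℓ`. -/
noncomputable def cond {k : Type} [Field k] [NumberField k] (ℓ : ℕ) (c : k) : ℕ :=
  ∏ᶠ v : HeightOneSpectrum (𝓞 k), if IsRam ℓ v c then Ideal.absNorm v.asIdeal else 1

/-- The group `k* / k* ^ ℓ`. -/
abbrev Cls (k : Type) [Field k] (ℓ : ℕ) : Type := kˣ ⧸ (powMonoidHom ℓ : kˣ →* kˣ).range

/-- The classes in `k* / k* ^ ℓ` of the elements `c` with `cond c ≤ X` and the property `P`. -/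
def classes {k : Type} [Field k] [NumberField k] (ℓ : ℕ) (P : k → Prop) (X : ℕ) :
    Set (Cls k ℓ) :=
  {C | ∃ c : kˣ, (c : Cls k ℓ) = C ∧ cond ℓ (c : k) ≤ X ∧ P c}

/-- The elements of `K₀` and the elements algebraic over `k`, in the algebraic closure of `K₀`: they
generate the function field of `Y` over the algebraic closure of `k`. -/
def base (k K₀ : Type) [Field k] [Field K₀] [Algebra k K₀] : Set (AlgebraicClosure K₀) :=
  {z | IsAlgebraic k z} ∪ Set.range (algebraMap K₀ (AlgebraicClosure K₀))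

/-- `K₀/k` is a function field of one variable, and the cover `y ^ ℓ = h` is of degree `ℓ` over the
algebraic closure of `k` and not rational over it. -/
structure IsCyclicCover (k : Type) {K₀ : Type} [Field k] [Field K₀] [Algebra k K₀] (ℓ : ℕ)
    (h : K₀) : Prop where
  ff : IsFunctionField k K₀
  irr : ∀ r : AlgebraicClosure K₀, r ^ ℓ = algebraMap K₀ (AlgebraicClosure K₀) h →
    r ∉ Subfield.closure (base k K₀)
  nonrat : ∀ r : AlgebraicClosure K₀, r ^ ℓ = algebraMap K₀ (AlgebraicClosure K₀) h →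
    ∀ y : AlgebraicClosure K₀,
      Subfield.closure (base k K₀ ∪ {r}) ≠ Subfield.closure ({z | IsAlgebraic k z} ∪ {y})

/-- A geometric branch point of `y ^ ℓ = h`: a valuation ring `P` of `K₀` containing `k` at which the
value of `h` is not the `ℓ`-th power of a value, with a homomorphism over `k` from `P` to the
algebraic closure of `k`, that is an embedding of its residue field. -/
@[ext] structure BranchPoint (k : Type) {K₀ : Type} [Field k] [Field K₀] [Algebra k K₀] (ℓ : ℕ)
    (h : K₀) where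
  P : ValuationSubring K₀
  φ : P →+* AlgebraicClosure k
  const : ∀ a : k, algebraMap k K₀ a ∈ P
  ram : ∀ z : K₀, P.valuation h ≠ P.valuation z ^ ℓ
  emb : ∀ (a : k) (x : P), (x : K₀) = algebraMap k K₀ a →
    φ x = algebraMap k (AlgebraicClosure k) a

/-- The action of the Galois group on the geometric branch points. -/
noncomputable def BranchPoint.map {k K₀ : Type} [Field k] [Field K₀] [Algebra k K₀] {ℓ : ℕ} {h : K₀}
    (b : BranchPoint k ℓ h) (σ : AlgebraicClosure k ≃ₐ[k] AlgebraicClosure k) :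
    BranchPoint k ℓ h where
  P := b.P
  φ := (σ : AlgebraicClosure k →+* AlgebraicClosure k).comp b.φ
  const := b.const
  ram := b.ram
  emb := fun a x hx => by
    change σ (b.φ x) = _
    rw [b.emb a x hx, σ.commutes]

/-- There are geometric branch points, and for every Galois stable finite set `J` of `j` geometric
branch points with `ℓ ^ j ≤ j ℓ ²` (`1 ≤ j ≤ 4` for `ℓ = 2`, `1 ≤ j ≤ 3` for `ℓ = 3`, `j = 1` or
`j = 2` for `ℓ ≥ 5`) some `σ` fixes a geometric branch point, but none in `J`. -/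
def ManyBranchPoints (k : Type) {K₀ : Type} [Field k] [Field K₀] [Algebra k K₀] (ℓ : ℕ) (h : K₀) :
    Prop :=
  Nonempty (BranchPoint k ℓ h) ∧
  ∀ J : Finset (BranchPoint k ℓ h), (∀ σ, ∀ b ∈ J, b.map σ ∈ J) → ℓ ^ J.card ≤ J.card * ℓ ^ 2 →
    ∃ σ : AlgebraicClosure k ≃ₐ[k] AlgebraicClosure k,
      (∃ b : BranchPoint k ℓ h, b.map σ = b) ∧ ∀ b ∈ J, b.map σ ≠ b

/-- Some curve over `k` which maps onto the curve `y ^ ℓ = c h` has a Galois section: there are an
extension `K` of `K₀` and `y ∈ K` with `y ^ ℓ = c h` such that `K/k` has a Galois section (`K` may be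
any field; the curve itself is `K = K₀(y)`). -/
def HasSection {k K₀ : Type} [Field k] [Field K₀] [Algebra k K₀] (ℓ : ℕ) (h : K₀) (c : k) : Prop :=
  ∃ (K : Type) (_ : Field K) (_ : Algebra k K) (_ : Algebra K₀ K) (_ : IsScalarTower k K₀ K)
    (y : K), y ^ ℓ = algebraMap k K c * algebraMap K₀ K h ∧ Nonempty (GaloisSection k K)

/-- The curve over `k` with function field `K` has an `F`-point: there are a valuation ring `P` of `K`
which contains `k` (a point of the curve, the generic one if `P = K`) and a homomorphism `P → F` over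
`k`. -/
def HasPoint (k K F : Type) [Field k] [Field K] [Field F] [Algebra k K] [Algebra k F] : Prop :=
  ∃ (P : ValuationSubring K) (ψ : P →+* F), ∀ a : k, ∃ h : algebraMap k K a ∈ P,
    ψ ⟨algebraMap k K a, h⟩ = algebraMap k F a

/-- The curve `y ^ ℓ = c h`, with function field `K = K₀(y)`, has an `F`-point. -/
def TwistHasPoint {k K₀ : Type} [Field k] [Field K₀] [Algebra k K₀] (ℓ : ℕ) (h : K₀) (c : k)
    (F : Type) [Field F] [Algebra k F] : Prop :=
  ∃ (K : Type) (_ : Field K) (_ : Algebra k K) (_ : Algebra K₀ K) (_ : IsScalarTower k K₀ K)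
    (y : K), y ^ ℓ = algebraMap k K c * algebraMap K₀ K h ∧
    IntermediateField.adjoin K₀ {y} = ⊤ ∧ HasPoint k K F

/-- The curve `y ^ ℓ = c h` has points over the completions `k_v` for `v ∈ S` and for the `v` with
`v(c)` not divisible by `ℓ`, and over the reals for all embeddings of `k` in the reals. -/
def LocallySoluble {k K₀ : Type} [Field k] [NumberField k] [Field K₀] [Algebra k K₀]
    (S : Set (HeightOneSpectrum (𝓞 k))) (ℓ : ℕ) (h : K₀) (c : k) : Prop :=
  (∀ v : HeightOneSpectrum (𝓞 k), v ∈ S ∨ IsRam ℓ v c →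
    TwistHasPoint ℓ h c (v.adicCompletion k)) ∧
  ∀ φ : k →+* ℝ, @TwistHasPoint k K₀ _ _ _ ℓ h c ℝ _ φ.toAlgebra

/-- The curve `y ^ ℓ = c h` has points over all completions of `k`. -/
def EverywhereLocallySoluble {k K₀ : Type} [Field k] [NumberField k] [Field K₀] [Algebra k K₀]
    (ℓ : ℕ) (h : K₀) (c : k) : Prop :=
  (∀ v : HeightOneSpectrum (𝓞 k), TwistHasPoint ℓ h c (v.adicCompletion k)) ∧
  ∀ φ : k →+* ℝ, @TwistHasPoint k K₀ _ _ _ ℓ h c ℝ _ φ.toAlgebra

/-- For prime `ℓ` the smaller powers of `r` lie in a subfield with `r ^ ℓ` only if `r` does. -/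
theorem mem_of_pow {F : Type} [Field F] (T : Subfield F) {ℓ i : ℕ} (hℓ : ℓ.Prime) (hi : 0 < i)
    (hil : i < ℓ) {r : F} (h1 : r ^ ℓ ∈ T) (h2 : r ^ i ∈ T) : r ∈ T := by
  by_cases hr : r = 0
  · rw [hr]
    exact zero_mem T
  have hco : IsCoprime (i : ℤ) (ℓ : ℤ) := by
    rw [Nat.isCoprime_iff_coprime]
    exact ((Nat.Prime.coprime_iff_not_dvd hℓ).2 fun h => absurd (Nat.le_of_dvd hi h) (by omega)).symm
  obtain ⟨a, b, hab⟩ := hco
  have h3 : r = (r ^ i) ^ a * (r ^ ℓ) ^ b := by
    rw [← zpow_natCast, ← zpow_natCast, ← zpow_mul, ← zpow_mul, ← zpow_add₀ hr,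
      mul_comm (i : ℤ) a, mul_comm (ℓ : ℤ) b, hab, zpow_one]
  rw [h3]
  exact mul_mem (zpow_mem h2 a) (zpow_mem h1 b)

theorem goodCurve {k K₀ : Type} [Field k] [Field K₀] [Algebra k K₀] {ℓ : ℕ} (hℓ : ℓ.Prime)
    {h : K₀} (H : IsCyclicCover k ℓ h) : Pool.Agent.LN.GoodCurve k ℓ h := by
  refine ⟨H.ff, fun r hr i hi hil hmem => H.irr r hr ?_, H.nonrat⟩
  refine mem_of_pow _ hℓ hi hil ?_ hmem
  rw [hr]
  exact Subfield.subset_closure (Or.inr ⟨h, rfl⟩)

/-- the two structures of branch points -/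
def toGBr {k K₀ : Type} [Field k] [Field K₀] [Algebra k K₀] {ℓ : ℕ} {h : K₀} :
    BranchPoint k ℓ h ≃ Pool.Agent.ML.GBr k (AlgebraicClosure k) ℓ h where
  toFun b := ⟨b.P, b.φ, b.const, b.ram, b.emb⟩
  invFun b := ⟨b.P, b.φ, b.const, b.ram, b.emb⟩
  left_inv _ := rfl
  right_inv _ := rfl

theorem hl {k K₀ : Type} [Field k] [Field K₀] [Algebra k K₀] {ℓ : ℕ} {h : K₀}
    (H : ManyBranchPoints k ℓ h) : Pool.Agent.ML.HL k ℓ h := by
  classical
  refine ⟨toGBr.nonempty_congr.1 H.1, fun J hJ hcard => ?_⟩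
  have hmem : ∀ b, b ∈ J.image toGBr.symm ↔ toGBr b ∈ J := by
    intro b
    rw [Finset.mem_image]
    constructor
    · rintro ⟨b', hb', rfl⟩
      rwa [Equiv.apply_symm_apply]
    · intro hb
      exact ⟨_, hb, Equiv.symm_apply_apply _ _⟩
  obtain ⟨σ, ⟨b, hb⟩, h2⟩ := H.2 (J.image toGBr.symm) (fun σ b hb => by
    rw [hmem] at hb ⊢
    exact hJ σ (toGBr b) hb) (by
    rw [Finset.card_image_of_injective _ toGBr.symm.injective]
    exact hcard)
  refine ⟨σ, ⟨toGBr b, congrArg toGBr hb⟩, fun b' hb' heq => ?_⟩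
  refine h2 (toGBr.symm b') ?_ ?_
  · rw [hmem, Equiv.apply_symm_apply]
    exact hb'
  · apply toGBr.injective
    rw [Equiv.apply_symm_apply]
    exact heq

theorem result {k K₀ : Type} [Field k] [NumberField k] [Field K₀] [Algebra k K₀] (ℓ : ℕ)
    (hℓ : ℓ.Prime) (hmu : ∃ ζ : k, IsPrimitiveRoot ζ ℓ) (h : K₀)
    (H : IsCyclicCover k ℓ h) (HB : ManyBranchPoints k ℓ h) :
    (∀ X : ℕ, (classes ℓ (fun _ : k => True) X).Finite) ∧
    -- a rational point gives a section
    (∀ c : k, TwistHasPoint ℓ h c k → HasSection ℓ h c) ∧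
    ∃ η : ℝ, 0 < η ∧
      -- the twists soluble at the primes in `S` and at the primes which divide them
      (∀ S : Set (HeightOneSpectrum (𝓞 k)), S.Finite → ∃ C : ℝ, 0 < C ∧ ∀ X : ℕ, 3 ≤ X →
        (Nat.card (classes ℓ (fun c : k => LocallySoluble S ℓ h c ∧ HasSection ℓ h c) X) : ℝ) ≤
          C * Nat.card (classes ℓ (fun c : k => LocallySoluble S ℓ h c) X) / Real.log X ^ η) ∧
      -- the everywhere locally soluble twists, for `Y` the projective line
      ((∃ x : K₀, IntermediateField.adjoin k {x} = ⊤) →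
        (∃ C : ℝ, 0 < C ∧ ∀ X : ℕ, 3 ≤ X →
          (Nat.card (classes ℓ (fun c : k => EverywhereLocallySoluble ℓ h c ∧
            HasSection ℓ h c) X) : ℝ) ≤
            C * Nat.card (classes ℓ (fun c : k => EverywhereLocallySoluble ℓ h c) X) /
              Real.log X ^ η) ∧
        ∃ (δ : ℝ) (X₀ : ℕ), 0 < δ ∧ ∀ X : ℕ, X₀ ≤ X → δ * X / Real.log X ≤
          Nat.card (classes ℓ (fun c : k => EverywhereLocallySoluble ℓ h c) X)) := by
  have hAbs := Pool.Agent.MLF.absL
  have hLP := Pool.Agent.MLF.lPL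
  have hL1 := Pool.Agent.MLF.l1L
  have hL2 := Pool.Agent.MLF.l2L
  have hL4 := Pool.Agent.MLF.l4L
  have hST := Pool.Agent.MLF.sTL
  have hHW := Pool.Agent.MLF.hWL
  have hG := goodCurve hℓ H
  have hHL := hl HB
  refine ⟨fun X => Pool.Agent.ML.clsU_finite hℓ.two_le (fun _ => True) X,
    fun c hc => Pool.Agent.MLF.hasSec_of_point hc, ?_⟩
  obtain ⟨η, hη, hrat⟩ := Pool.Agent.MLF.ratio_of hAbs hL1 hL2 hL4 hℓ hmu hG hHL
  refine ⟨η, hη, hrat, fun ⟨x, hgen⟩ => ?_⟩
  obtain ⟨⟨S, hS, hELS⟩, c₀, hc₀, hsec⟩ := Pool.Agent.MLF.p1_els hHW hLP hST hℓ hmu hG hgen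
  have e1 : ∀ X : ℕ, classes ℓ (fun c : k => EverywhereLocallySoluble ℓ h c) X =
      classes ℓ (fun c : k => LocallySoluble S ℓ h c) X := by
    intro X
    ext C
    exact ⟨fun ⟨c, h1, h2, h3⟩ => ⟨c, h1, h2, (hELS c c.ne_zero).1 h3⟩,
      fun ⟨c, h1, h2, h3⟩ => ⟨c, h1, h2, (hELS c c.ne_zero).2 h3⟩⟩
  have e2 : ∀ X : ℕ, classes ℓ (fun c : k => EverywhereLocallySoluble ℓ h c ∧
      HasSection ℓ h c) X = classes ℓ (fun c : k => LocallySoluble S ℓ h c ∧
      HasSection ℓ h c) X := by
    intro X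
    ext C
    exact ⟨fun ⟨c, h1, h2, h3, h4⟩ => ⟨c, h1, h2, (hELS c c.ne_zero).1 h3, h4⟩,
      fun ⟨c, h1, h2, h3, h4⟩ => ⟨c, h1, h2, (hELS c c.ne_zero).2 h3, h4⟩⟩
  constructor
  · obtain ⟨C, hC, h1⟩ := hrat S hS
    refine ⟨C, hC, fun X hX => ?_⟩
    rw [e1, e2]
    exact h1 X hX
  · rcases Pool.Agent.MLF.locSol_bounds hAbs hL1 hL2 hL4 hℓ hmu hG hHL with
      h0 | ⟨κ, η', C, hκ, -, -, -, hlow⟩
    · exact absurd hsec (h0 c₀ c₀.ne_zero)
    · obtain ⟨δ, X₀, hδ, h1⟩ := hlow S hS c₀ ((hELS c₀ c₀.ne_zero).1 hc₀)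
      refine ⟨δ, max X₀ 3, hδ, fun X hX => ?_⟩
      rw [e1]
      refine le_trans ?_ (h1 X ((le_max_left _ _).trans hX))
      have hX3 : 3 ≤ X := (le_max_right _ _).trans hX
      have hX3' : (3 : ℝ) ≤ X := by exact_mod_cast hX3
      have hlog1 : 1 ≤ Real.log X := by
        rw [Real.le_log_iff_exp_le (by linarith)]
        exact Real.exp_one_lt_three.le.trans hX3'
      rw [mul_div_assoc]
      refine mul_le_mul_of_nonneg_left ?_ hδ.le
      rw [div_eq_mul_inv, ← Real.rpow_neg_one]
      refine mul_le_mul_of_nonneg_left ?_ (by linarith)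
      exact Real.rpow_le_rpow_of_exponent_le hlog1 (by linarith)

end Pool.Agent.Results.MP_e66f84_ag.LocallySolubleTwists
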